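import Pool.Agent.Helper16.GWA.TREa
import Pool.Agent.Helper15.WA.TRB

/-!
# GWA module TRE: inert primes
-/

set_option autoImplicit false

namespace GWA

section TRE

variable {K : Type} [NormedField K] [Algebra GaussianInt K] [NeZero (2 : K)] [DecidableEq K]
  {π : GaussianInt} {A : Set (FLD K π).Sys}

theorem LocHyp.Rc_all_of_inert (h : LocHyp K π) (hodd : ¬ π ∣ 2) (hA : (FLD K π).LStable A)
    (hNN : (FLD K π).NN ⊆ A) {q : ℕ} (hq : q.Prime) (hq4 : q % 4 = 3)
    (hπq : Associated π (q : GaussianInt)) {c : K} (hc : ‖c‖ ≤ 1) (hcn : ∀ n : ℤ, ‖c - n‖ = 1)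
    (hR : Rc A c) : ∀ c : K, ‖c‖ ≤ 1 → Rc A c := by
  have : Fact q.Prime := ⟨hq⟩
  -- the norm in terms of the residues
  have hnorm : ∀ a : GaussianInt, ‖algebraMap GaussianInt K a‖ < 1 ↔
      (a.re : ZMod q) = 0 ∧ (a.im : ZMod q) = 0 := by
    intro a
    rw [h.norm_lt_one_iff, hπq.dvd_iff_dvd_left, ZMod.intCast_zmod_eq_zero_iff_dvd,
      ZMod.intCast_zmod_eq_zero_iff_dvd, ← TRE.int_dvd_iff, Int.cast_natCast]
  have hle : ∀ a : GaussianInt, ‖algebraMap GaussianInt K a‖ ≤ 1 := h.norm_O_le
  have hcong : ∀ a b : GaussianInt, (a.re : ZMod q) = b.re → (a.im : ZMod q) = b.im →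
      Rc A (algebraMap GaussianInt K a) → Rc A (algebraMap GaussianInt K b) := by
    intro a b h1 h2 h3
    refine Rc_congr ?_ h h3
    rw [← map_sub, hnorm]
    simp [h1, h2]
  -- residues
  let R : ZMod q → ZMod q → Prop := fun m n =>
    ∀ a : GaussianInt, (a.re : ZMod q) = m → (a.im : ZMod q) = n → Rc A (algebraMap GaussianInt K a)
  have hRiff : ∀ a : GaussianInt, Rc A (algebraMap GaussianInt K a) → R a.re a.im := by
    intro a ha b hb1 hb2
    exact hcong a b hb1.symm hb2.symm ha
  have hrep : ∀ m n : ZMod q, ∃ a : GaussianInt, (a.re : ZMod q) = m ∧ (a.im : ZMod q) = n := by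
    intro m n
    exact ⟨⟨m.val, n.val⟩, by simp, by simp⟩
  -- norm one
  have hone : ∀ a : GaussianInt, (a.im : ZMod q) ≠ 0 → ‖algebraMap GaussianInt K a‖ = 1 := by
    intro a ha
    refine le_antisymm (hle a) (not_lt.1 fun h1 => ?_)
    rw [hnorm] at h1
    exact ha h1.2
  have ha : ∀ m n, n ≠ 0 → R m n → R (m + 1) n := by
    intro m n hn hm
    obtain ⟨a, ha1, ha2⟩ := hrep m n
    have h1 := hm a ha1 ha2
    -- `-a - 1`
    have h2 : Rc A (algebraMap GaussianInt K (-a - 1)) := by
      refine h.Rc_sig hodd hA (hle _) ?_ ?_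
      · have : algebraMap GaussianInt K (-a - 1) - 1 = algebraMap GaussianInt K (-a - 1 - 1) := by
          rw [map_sub _ (-a - 1), map_one]
        rw [this]
        refine hone _ ?_
        simp [ha2, hn]
      · have : -algebraMap GaussianInt K (-a - 1) - 1 = algebraMap GaussianInt K a := by
          rw [map_sub, map_neg, map_one]
          ring
        rw [this]
        exact h1
    have h3 := h.Rc_neg hA h2
    rw [← map_neg] at h3
    have h4 := hRiff _ h3
    have e1 : (((-(-a - 1)).re : ℤ) : ZMod q) = m + 1 := by simp [ha1, add_comm]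
    have e2 : (((-(-a - 1)).im : ℤ) : ZMod q) = n := by simp [ha2]
    rwa [e1, e2] at h4
  have hb : ∀ m n, R m n → R (-m) (-n) := by
    intro m n hm
    obtain ⟨a, ha1, ha2⟩ := hrep m n
    have h3 := h.Rc_neg hA (hm a ha1 ha2)
    rw [← map_neg] at h3
    have h4 := hRiff _ h3
    have e1 : (((-a).re : ℤ) : ZMod q) = -m := by simp [ha1]
    have e2 : (((-a).im : ℤ) : ZMod q) = -n := by simp [ha2]
    rwa [e1, e2] at h4
  have ha' : ∀ m n, n ≠ 0 → R m n → R (m - 1) n := by
    intro m n hn hm
    have h1 := hb _ _ (ha _ _ (neg_ne_zero.2 hn) (hb _ _ hm))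
    rw [neg_neg] at h1
    have : -(-m + 1) = m - 1 := by ring
    rwa [this] at h1
  have hcc : ∀ m n m' n', n ≠ 0 → m' * m - n' * n = 2 → m' * n + n' * m = 0 → R m n →
      R m' n' := by
    intro m n m' n' hn e1 e2 hm
    obtain ⟨u, hu1, hu2⟩ := hrep m n
    obtain ⟨w, hw1, hw2⟩ := hrep m' n'
    have hq2 : (2 : ZMod q) ≠ 0 := by
      have : ((2 : ℕ) : ZMod q) ≠ 0 := by
        rw [Ne, ZMod.natCast_eq_zero_iff]
        intro h
        have := Nat.le_of_dvd (by norm_num) h
        have := hq.two_le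
        interval_cases q
        simp at hq4
      exact_mod_cast this
    have hn' : n' ≠ 0 := by
      rintro rfl
      rw [zero_mul, add_zero] at e2
      rcases mul_eq_zero.1 e2 with h0 | h0
      · rw [h0] at e1
        apply hq2
        rw [← e1]
        ring
      · exact hn h0
    have h1 : Rc A (algebraMap GaussianInt K (u + 1)) :=
      ha _ _ hn hm (u + 1) (by simp [hu1]) (by simp [hu2])
    have hu : ‖algebraMap GaussianInt K u‖ = 1 := hone u (by rw [hu2]; exact hn)
    have e3 : algebraMap GaussianInt K (u + 1) - 1 = algebraMap GaussianInt K u := by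
      rw [map_add, map_one]
      ring
    have h2 := h.Rc_T hodd hA (hle _) (by rw [e3]; exact hu) h1
    rw [e3] at h2
    have hu0 : algebraMap GaussianInt K u ≠ 0 := by
      rw [← norm_ne_zero_iff, hu]
      exact one_ne_zero
    have h3 : Rc A (algebraMap GaussianInt K (w + 1)) := by
      refine Rc_congr ?_ h h2
      have e4 : (algebraMap GaussianInt K (u + 1) + 1) / algebraMap GaussianInt K u -
          algebraMap GaussianInt K (w + 1) =
          algebraMap GaussianInt K (2 - w * u) / algebraMap GaussianInt K u := by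
        rw [map_add, map_one, map_add, map_one, map_sub, map_mul, map_ofNat]
        field_simp
        ring
      rw [e4, norm_div, hu, div_one, hnorm]
      constructor
      · simp [hu1, hu2, hw1, hw2]
        linear_combination -e1
      · simp [hu1, hu2, hw1, hw2]
        linear_combination -e2
    have h4 := hRiff _ h3
    have e5 : (((w + 1).re : ℤ) : ZMod q) = m' + 1 := by simp [hw1]
    have e6 : (((w + 1).im : ℤ) : ZMod q) = n' := by simp [hw2]
    rw [e5, e6] at h4
    have h5 := ha' _ _ hn' h4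
    rwa [add_sub_cancel_right] at h5
  -- the given residue
  obtain ⟨a₀, ha₀⟩ := h.res c hc
  have hR0 : R a₀.re a₀.im := hRiff _ (Rc_congr ha₀ h hR)
  have hn0 : (a₀.im : ZMod q) ≠ 0 := by
    intro h0
    have h1 : ‖algebraMap GaussianInt K (a₀ - (a₀.re : GaussianInt))‖ < 1 := by
      rw [hnorm]
      simp [h0]
    have h2 := hcn a₀.re
    have h3 : c - (a₀.re : K) = (c - algebraMap GaussianInt K a₀) +
        algebraMap GaussianInt K (a₀ - (a₀.re : GaussianInt)) := by
      rw [map_sub, map_intCast]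
      ring
    have h4 := h.ultra (c - algebraMap GaussianInt K a₀)
      (algebraMap GaussianInt K (a₀ - (a₀.re : GaussianInt)))
    rw [← h3, h2] at h4
    exact absurd h4 (not_le.2 (max_lt ha₀ h1))
  have hall := TRE.transitive hq4 R ha hb hcc hn0 hR0
  intro c' hc'
  obtain ⟨a, ha⟩ := h.res c' hc'
  have hac : ‖algebraMap GaussianInt K a - c'‖ < 1 := by
    rw [norm_sub_rev]
    exact ha
  by_cases hn : (a.im : ZMod q) = 0
  · refine Rc_congr hac h ?_
    have h1 := h.Rc_int hodd hA hNN a.re
    have h2 : ((a.re : ℤ) : K) = algebraMap GaussianInt K (a.re : GaussianInt) := by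
      rw [map_intCast]
    rw [h2] at h1
    exact hcong _ _ (by simp) (by simp [hn]) h1
  · exact Rc_congr hac h (hall _ _ hn a rfl rfl)

end TRE

end GWA
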