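import Pool.Agent.Helper15.WA.LocDefs
import Pool.Agent.Helper10.GWA.LB

/-!
# GWA module TRE, first part: finite fields and prime elements
-/

set_option autoImplicit false

namespace GWA

open Polynomial


namespace TRE

/-! ### finite fields -/

section ff

variable {q : ℕ} [Fact q.Prime] (hq4 : q % 4 = 3)

include hq4

theorem sq_add_one_ne (s : ZMod q) : s ^ 2 + 1 ≠ 0 := by
  intro h
  have h1 : s ^ 2 = -1 := by linear_combination h
  exact ZMod.mod_four_ne_three_of_sq_eq_neg_one h1 hq4

theorem sq_add_sq_ne {m n : ZMod q} (hn : n ≠ 0) : m ^ 2 + n ^ 2 ≠ 0 := by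
  intro h
  apply sq_add_one_ne hq4 (m / n)
  field_simp
  rw [h, mul_zero]

theorem exists_conic {c : ZMod q} (hc : c ≠ 0) : ∃ s t : ZMod q, t ^ 2 + 1 = c * (s ^ 2 + 1) := by
  have h1 : (X ^ 2 : (ZMod q)[X]).degree = 2 := degree_X_pow 2
  have h2 : (C (-c) * X ^ 2 + C 0 * X + C (1 - c) : (ZMod q)[X]).degree = 2 :=
    degree_quadratic (neg_ne_zero.2 hc)
  have h3 : Fintype.card (ZMod q) % 2 = 1 := by
    rw [ZMod.card]
    omega
  obtain ⟨a, b, hab⟩ := FiniteField.exists_root_sum_quadratic h1 h2 h3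
  refine ⟨b, a, ?_⟩
  simp only [eval_pow, eval_X, eval_add, eval_mul, eval_C] at hab
  linear_combination hab

/-- the abstract transitivity -/
theorem transitive (R : ZMod q → ZMod q → Prop)
    (ha : ∀ m n, n ≠ 0 → R m n → R (m + 1) n) (hb : ∀ m n, R m n → R (-m) (-n))
    (hc : ∀ m n m' n', n ≠ 0 → m' * m - n' * n = 2 → m' * n + n' * m = 0 → R m n → R m' n')
    {m₀ n₀ : ZMod q} (h0 : n₀ ≠ 0) (hR : R m₀ n₀) : ∀ m n, n ≠ 0 → R m n := by
  have h2 : (2 : ZMod q) ≠ 0 := by
    have : ((2 : ℕ) : ZMod q) ≠ 0 := by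
      rw [Ne, ZMod.natCast_eq_zero_iff]
      intro h
      have := Nat.le_of_dvd (by norm_num) h
      have := (Fact.out : q.Prime).two_le
      interval_cases q
      simp at hq4
    exact_mod_cast this
  have htr : ∀ n : ZMod q, n ≠ 0 → ∀ m, R m n → ∀ m', R m' n := by
    intro n hn m hm m'
    have key : ∀ k : ℕ, R (m + k) n := by
      intro k
      induction k with
      | zero => simpa using hm
      | succ k ih =>
        have := ha _ _ hn ih
        rw [add_assoc] at this
        exact_mod_cast this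
    have := key (m' - m).val
    rw [ZMod.natCast_zmod_val] at this
    rwa [add_sub_cancel] at this
  have hstep : ∀ n : ZMod q, n ≠ 0 → (∀ m, R m n) → ∀ s, ∀ m, R m (2 / (n * (s ^ 2 + 1))) := by
    intro n hn hm s
    have hs := sq_add_one_ne hq4 s
    have e1 : R (-(2 * s / (n * (s ^ 2 + 1)))) (2 / (n * (s ^ 2 + 1))) := by
      have := hb _ _ (hc (s * n) n (2 * s / (n * (s ^ 2 + 1))) (-(2 / (n * (s ^ 2 + 1)))) hn
        (by field_simp; ring) (by field_simp; ring) (hm _))
      rwa [neg_neg] at this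
    exact htr _ (div_ne_zero h2 (mul_ne_zero hn hs)) _ e1
  intro m n hn
  have h00 := htr n₀ h0 m₀ hR
  obtain ⟨s, t, hst⟩ := exists_conic hq4 (c := n₀ / n) (div_ne_zero h0 hn)
  have hs := sq_add_one_ne hq4 s
  have ht := sq_add_one_ne hq4 t
  have e1 := hstep n₀ h0 h00 s
  have e2 := hstep _ (div_ne_zero h2 (mul_ne_zero h0 hs)) e1 t m
  have e3 : 2 / (2 / (n₀ * (s ^ 2 + 1)) * (t ^ 2 + 1)) = n := by
    rw [hst]
    field_simp
  rwa [e3] at e2

end ff

/-! ### divisibility in the Gaussian integers -/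

theorem int_dvd_iff (q : ℤ) (a : GaussianInt) : (q : GaussianInt) ∣ a ↔ q ∣ a.re ∧ q ∣ a.im :=
  Zsqrtd.intCast_dvd q a

end TRE

theorem prime_cases {π : GaussianInt} (hπ : Prime π) (h2 : ¬ π ∣ 2) :
    (∀ a : GaussianInt, ∃ n : ℤ, π ∣ a - (n : GaussianInt)) ∨
      ∃ q : ℕ, q.Prime ∧ q % 4 = 3 ∧ Associated π (q : GaussianInt) := by
  -- a rational prime divisible by `π`
  have hn0 : π.norm.natAbs ≠ 0 := by
    rw [Int.natAbs_ne_zero, Ne, GaussianInt.norm_eq_zero]
    exact hπ.ne_zero
  have hdn : π ∣ ((π.norm.natAbs : ℕ) : GaussianInt) := by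
    have h1 : ((π.norm.natAbs : ℕ) : GaussianInt) = π * star π := by
      have h3 : ((π.norm.natAbs : ℕ) : ℤ) = π.norm := by
        rw [Int.natCast_natAbs, abs_of_nonneg (GaussianInt.norm_nonneg π)]
      have h4 : ((π.norm.natAbs : ℕ) : GaussianInt) = ((π.norm : ℤ) : GaussianInt) := by
        rw [← h3]
        simp
      rw [h4, Zsqrtd.norm_eq_mul_conj]
    rw [h1]
    exact dvd_mul_right _ _
  obtain ⟨p, hp, hpd⟩ : ∃ p : ℕ, p.Prime ∧ π ∣ (p : GaussianInt) := by
    have key : ∀ N : ℕ, N ≠ 0 → π ∣ (N : GaussianInt) → ∃ p : ℕ, p.Prime ∧ π ∣ (p : GaussianInt) := by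
      intro N
      induction N using Nat.recOnMul with
      | zero => exact fun h => absurd rfl h
      | one =>
        intro _ h
        rw [Nat.cast_one] at h
        exact absurd (isUnit_of_dvd_one h) hπ.not_isUnit
      | prime p hp => exact fun _ h => ⟨p, hp, h⟩
      | mul a b iha ihb =>
        intro hab h
        rw [Nat.cast_mul] at h
        rcases hπ.dvd_or_dvd h with h | h
        · exact iha (left_ne_zero_of_mul hab) h
        · exact ihb (right_ne_zero_of_mul hab) h
    exact key _ hn0 hdn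
  have : Fact p.Prime := ⟨hp⟩
  have hp2 : p ≠ 2 := by
    rintro rfl
    exact h2 (by exact_mod_cast hpd)
  have hodd : p % 2 = 1 := by
    rcases hp.eq_two_or_odd with h | h
    · exact absurd h hp2
    · exact h
  rcases (by omega : p % 4 = 1 ∨ p % 4 = 3) with h4 | h4
  swap
  · right
    refine ⟨p, hp, h4, ?_⟩
    have hpp : Prime (p : GaussianInt) := GaussianInt.prime_of_nat_prime_of_mod_four_eq_three p h4
    exact (hπ.dvd_prime_iff_associated hpp).1 hpd
  · left
    obtain ⟨x, y, hxy⟩ := Nat.Prime.sq_add_sq (p := p) (by omega)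
    -- `i` is congruent to an integer
    have hi : ∃ m : ℤ, π ∣ (⟨0, 1⟩ : GaussianInt) - (m : GaussianInt) := by
      have hyp : ¬ p ∣ y := by
        intro h
        have hy0 : y ≠ 0 := by
          rintro rfl
          rw [zero_pow two_ne_zero, add_zero] at hxy
          exact (Nat.prime_iff.1 hp).irreducible.not_isSquare ⟨x, by rw [← hxy, sq]⟩
        have hle := Nat.le_of_dvd (Nat.pos_of_ne_zero hy0) h
        have hp1 := hp.two_le
        nlinarith
      have hco : IsCoprime (y : ℤ) (p : ℤ) := by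
        rw [Nat.isCoprime_iff_coprime, Nat.coprime_comm]
        exact (hp.coprime_iff_not_dvd).2 hyp
      obtain ⟨u, v, huv⟩ := hco
      have hprod : π ∣ (⟨x, y⟩ : GaussianInt) * ⟨x, -y⟩ := by
        have : (⟨x, y⟩ : GaussianInt) * ⟨x, -y⟩ = (p : GaussianInt) := by
          rw [Zsqrtd.ext_iff]
          constructor
          · simp
            rw [← hxy]
            push_cast
            ring
          · simp
            ring
        rw [this]
        exact hpd
      rcases hπ.dvd_or_dvd hprod with h | h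
      · refine ⟨-(u * x), ?_⟩
        have e : (⟨0, 1⟩ : GaussianInt) - ((-(u * x) : ℤ) : GaussianInt) =
            (u : GaussianInt) * ⟨x, y⟩ + (v : GaussianInt) * ⟨0, 1⟩ * (p : GaussianInt) := by
          rw [Zsqrtd.ext_iff]
          constructor
          · simp
          · simp
            linarith
        rw [e]
        exact dvd_add (h.mul_left _) (hpd.mul_left _)
      · refine ⟨u * x, ?_⟩
        have e : (⟨0, 1⟩ : GaussianInt) - ((u * x : ℤ) : GaussianInt) =
            -((u : GaussianInt) * ⟨x, -y⟩) + (v : GaussianInt) * ⟨0, 1⟩ * (p : GaussianInt) := by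
          rw [Zsqrtd.ext_iff]
          constructor
          · simp
          · simp
            linarith
        rw [e]
        exact dvd_add ((h.mul_left _).neg_right) (hpd.mul_left _)
    obtain ⟨m, hm⟩ := hi
    intro a
    refine ⟨a.re + m * a.im, ?_⟩
    have e : a - ((a.re + m * a.im : ℤ) : GaussianInt) =
        (a.im : GaussianInt) * ((⟨0, 1⟩ : GaussianInt) - (m : GaussianInt)) := by
      rw [Zsqrtd.ext_iff]
      constructor
      · simp
        ring
      · simp
    rw [e]
    exact hm.mul_left _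

end GWA
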